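import Pool.Agent.Helper70.DK.Defs2

/-! COREM: for most parameters the points of the window `[0, N)` have almost full entropy. -/

namespace Pool.Agent.Helper70.DK

open Finset MeasureTheory

/-- iterated superadditivity -/
theorem corem_iter {m B : ℕ} {R t : ℝ} {ι : Type} [Fintype ι] (σ : Sys m ι)
    (hS1 : ∀ (i n1 n2 : ℕ), σ.hh B t (1 : Matrix (Fin m) (Fin m) ℝ) i n1 +
      σ.hh B t (1 : Matrix (Fin m) (Fin m) ℝ) (i + n1) n2 - cc m B R ≤
      σ.hh B t (1 : Matrix (Fin m) (Fin m) ℝ) i (n1 + n2))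
    (hS0 : ∀ i n, 0 ≤ σ.hh B t (1 : Matrix (Fin m) (Fin m) ℝ) i n) (w n : ℕ) :
    ∑ q ∈ Finset.range n, (σ.hh B t (1 : Matrix (Fin m) (Fin m) ℝ) (q * w) w - cc m B R) ≤
      σ.hh B t (1 : Matrix (Fin m) (Fin m) ℝ) 0 (n * w) := by
  induction n with
  | zero => simpa using hS0 0 0
  | succ n ih =>
    rw [Finset.sum_range_succ]
    have h := hS1 0 (n * w) w
    rw [zero_add] at h
    rw [Nat.succ_mul]
    linarith

open Classical in
theorem corem_markov (n : ℕ) (S : ℕ → Set ℝ) (δ x : ℝ) (hx : 0 < x)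
    (hS : ∀ q < n, volume (S q) ≤ ENNReal.ofReal δ) :
    volume {t : ℝ | x * n < (((Finset.range n).filter (fun q => t ∈ S q)).card : ℝ)} ≤
      ENNReal.ofReal (δ / x) := by
  rcases Nat.eq_zero_or_pos n with h0 | hn
  · subst h0
    simp
  have hn' : (0 : ℝ) < n := by exact_mod_cast hn
  set f : ℝ → ENNReal := fun t => ∑ q ∈ Finset.range n, (toMeasurable volume (S q)).indicator 1 t with hf
  have hfm : AEMeasurable f volume := by
    apply Measurable.aemeasurable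
    apply Finset.measurable_fun_sum
    intro q _
    exact (measurable_const).indicator (measurableSet_toMeasurable _ _)
  have hint : ∫⁻ t, f t ≤ n * ENNReal.ofReal δ := by
    rw [hf]
    rw [lintegral_finsetSum]
    · calc ∑ q ∈ Finset.range n, ∫⁻ t, (toMeasurable volume (S q)).indicator 1 t
          ≤ ∑ q ∈ Finset.range n, ENNReal.ofReal δ := by
            apply Finset.sum_le_sum
            intro q hq
            rw [lintegral_indicator_one (measurableSet_toMeasurable _ _), measure_toMeasurable]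
            exact hS q (Finset.mem_range.mp hq)
        _ = n * ENNReal.ofReal δ := by simp
    · intro q _
      exact (measurable_const).indicator (measurableSet_toMeasurable _ _)
  have hsub : {t : ℝ | x * n < (((Finset.range n).filter (fun q => t ∈ S q)).card : ℝ)} ⊆
      {t | ENNReal.ofReal (x * n) ≤ f t} := by
    intro t ht
    simp only [Set.mem_ofPred_eq] at ht ⊢
    have h1 : ENNReal.ofReal (x * n) ≤ ((((Finset.range n).filter (fun q => t ∈ S q)).card : ℕ) : ENNReal) := by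
      rw [← ENNReal.ofReal_natCast]
      exact ENNReal.ofReal_le_ofReal ht.le
    refine h1.trans ?_
    rw [Finset.card_filter, hf]
    push_cast
    apply Finset.sum_le_sum
    intro q _
    split_ifs with h
    · rw [Set.indicator_of_mem (subset_toMeasurable _ _ h)]
      simp
    · simp
  calc volume {t : ℝ | x * n < (((Finset.range n).filter (fun q => t ∈ S q)).card : ℝ)}
      ≤ volume {t | ENNReal.ofReal (x * n) ≤ f t} := measure_mono hsub
    _ ≤ (∫⁻ t, f t) / ENNReal.ofReal (x * n) := by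
        apply meas_ge_le_lintegral_div hfm
        · have : 0 < x * n := by positivity
          simpa using this
        · exact ENNReal.ofReal_ne_top
    _ ≤ (n * ENNReal.ofReal δ) / ENNReal.ofReal (x * n) := by gcongr
    _ = ENNReal.ofReal (δ / x) := by
        rw [← ENNReal.ofReal_natCast, ← ENNReal.ofReal_mul (by positivity),
          ← ENNReal.ofReal_div_of_pos (by positivity)]
        congr 1
        field_simp

theorem corem_geom (c0 a0 : ℕ) :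
    ∑ c ∈ Finset.Icc c0 a0, (1 / 2 : ℝ) ^ (c + 1) ≤ (1 / 2 : ℝ) ^ c0 := by
  have h : ∀ a : ℕ, c0 ≤ a → ∑ c ∈ Finset.Icc c0 a, (1 / 2 : ℝ) ^ (c + 1) = (1 / 2 : ℝ) ^ c0 - (1 / 2) ^ (a + 1) := by
    intro a ha
    induction a, ha using Nat.le_induction with
    | base => simp [pow_succ]; ring
    | succ a ha ih =>
      rw [Finset.sum_Icc_succ_top (by omega), ih]
      rw [pow_succ (1 / 2 : ℝ) (a + 1)]
      ring
  rcases le_or_gt c0 a0 with h1 | h1
  · rw [h a0 h1]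
    have : (0 : ℝ) < (1 / 2) ^ (a0 + 1) := by positivity
    linarith
  · rw [Finset.Icc_eq_empty (by omega)]
    simp

theorem corem_two_pow (B c : ℕ) (hB : 2 ≤ B) : (2 : ℝ) ^ (c + 1) ≤ (B : ℝ) ^ (1 * 2 ^ c) := by
  have h1 : c + 1 ≤ 2 ^ c := Nat.lt_two_pow_self
  have h2 : (2 : ℕ) ^ (c + 1) ≤ B ^ (1 * 2 ^ c) := by
    calc (2 : ℕ) ^ (c + 1) ≤ 2 ^ (2 ^ c) := Nat.pow_le_pow_right (by norm_num) h1
      _ ≤ B ^ (2 ^ c) := Nat.pow_le_pow_left hB _
      _ = B ^ (1 * 2 ^ c) := by rw [one_mul]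
  exact_mod_cast h2

open Classical in
theorem corem_sum (n : ℕ) (e : ℕ → ℝ) (x : ℝ) (he : ∀ q < n, -1 ≤ e q) :
    n * x - (x + 1) * (((Finset.range n).filter (fun q => e q < x)).card : ℝ) ≤
      ∑ q ∈ Finset.range n, e q := by
  rw [Finset.card_filter]
  push_cast
  rw [Finset.mul_sum]
  have h1 : (n : ℝ) * x = ∑ q ∈ Finset.range n, x := by simp
  rw [h1, ← Finset.sum_sub_distrib]
  apply Finset.sum_le_sum
  intro q hq
  split_ifs with h
  · have := he q (Finset.mem_range.1 hq)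
    linarith
  · push Not at h
    linarith

open Classical in
theorem corem_num {m B : ℕ} {R t : ℝ} {ι : Type} [Fintype ι] (σ : Sys m ι) (ε0 ε1 L : ℝ)
    (a0 A N : ℕ) (hL : L = Real.log B) (hLpos : 0 < L) (hε0 : 0 ≤ ε0) (hε1 : 0 < ε1)
    (hpos : 0 < m - ε0 - ε1) (hAN : 2 ^ A < 2 * N) (hNA : N ≤ 2 ^ A) (ha0A : a0 ≤ A)
    (hcc : cc m B R ≤ 2 ^ a0 * L)
    (hN : 2 * (2 ^ a0 * m + cc m B R / L) / ε1 ≤ N)
    (hS1 : ∀ (i n1 n2 : ℕ), σ.hh B t (1 : Matrix (Fin m) (Fin m) ℝ) i n1 +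
      σ.hh B t (1 : Matrix (Fin m) (Fin m) ℝ) (i + n1) n2 - cc m B R ≤
      σ.hh B t (1 : Matrix (Fin m) (Fin m) ℝ) i (n1 + n2))
    (hS0 : ∀ i n, 0 ≤ σ.hh B t (1 : Matrix (Fin m) (Fin m) ℝ) i n)
    (hG0 : ∀ i n, 0 ≤ σ.GG B t m i n)
    (hG1 : ∀ i n, σ.GG B t m i n ≤ σ.hh B t (1 : Matrix (Fin m) (Fin m) ℝ) i n)
    (hbad : (((Finset.range (2 ^ (A - a0))).filter (fun q =>
      σ.ee B R t m a0 q < m - ε0 - ε1 / 4)).card : ℝ) ≤ ε1 / (8 * (m + 1)) * 2 ^ (A - a0)) :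
    (m - ε0 - ε1) * N * L ≤ σ.hh B t (1 : Matrix (Fin m) (Fin m) ℝ) 0 N := by
  set n1 := N / 2 ^ a0 with hn1
  set x : ℝ := m - ε0 - ε1 / 4 with hx
  have hxpos : 0 < x := by rw [hx]; linarith
  have hxm : x ≤ m := by rw [hx]; linarith
  have h2a : (0 : ℝ) < 2 ^ a0 := by positivity
  have hwL : (0 : ℝ) < 2 ^ a0 * L := by positivity
  have hee : ∀ q, (2 : ℝ) ^ a0 * L * σ.ee B R t m a0 q = σ.GG B t m (q * 2 ^ a0) (2 ^ a0) - cc m B R := by
    intro q
    rw [Sys.ee, ← hL]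
    field_simp
  have hem1 : ∀ q, -1 ≤ σ.ee B R t m a0 q := by
    intro q
    have h1 := hee q
    have h2 := hG0 (q * 2 ^ a0) (2 ^ a0)
    by_contra hcon
    push Not at hcon
    nlinarith
  have hsum := corem_sum n1 (fun q => σ.ee B R t m a0 q) x (fun q _ => hem1 q)
  have hn1A : n1 ≤ 2 ^ (A - a0) := by
    rw [hn1]
    apply Nat.div_le_of_le_mul
    rw [← pow_add]
    rwa [Nat.add_sub_cancel' ha0A]
  have hbad2 : (((Finset.range n1).filter (fun q => σ.ee B R t m a0 q < x)).card : ℝ) ≤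
      ε1 / (8 * (m + 1)) * 2 ^ (A - a0) := by
    refine le_trans ?_ hbad
    exact_mod_cast Finset.card_le_card (Finset.filter_subset_filter _
      (Finset.range_subset_range.2 hn1A))
  have hpw : (2 : ℝ) ^ a0 * 2 ^ (A - a0) = 2 ^ A := by
    rw [← pow_add, Nat.add_sub_cancel' ha0A]
  have hAN' : (2 : ℝ) ^ A < 2 * N := by exact_mod_cast hAN
  have hdiv : n1 * 2 ^ a0 + N % 2 ^ a0 = N := by
    rw [hn1, mul_comm]
    exact Nat.div_add_mod N (2 ^ a0)
  have hmod : N % 2 ^ a0 < 2 ^ a0 := Nat.mod_lt _ (by positivity)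
  have hdivR : (N : ℝ) - 2 ^ a0 ≤ n1 * 2 ^ a0 := by
    have h1 : (N : ℝ) = n1 * 2 ^ a0 + ((N % 2 ^ a0 : ℕ) : ℝ) := by
      exact_mod_cast hdiv.symm
    have h2 : ((N % 2 ^ a0 : ℕ) : ℝ) ≤ 2 ^ a0 := by exact_mod_cast hmod.le
    linarith
  -- superadditivity
  have hA1 := corem_iter σ hS1 hS0 (2 ^ a0) n1
  have hA2 := hS1 0 (n1 * 2 ^ a0) (N % 2 ^ a0)
  rw [zero_add, hdiv] at hA2
  have hA3 := hS0 (n1 * 2 ^ a0) (N % 2 ^ a0)
  have hA4 : (2 : ℝ) ^ a0 * L * ∑ q ∈ Finset.range n1, σ.ee B R t m a0 q ≤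
      ∑ q ∈ Finset.range n1, (σ.hh B t (1 : Matrix (Fin m) (Fin m) ℝ) (q * 2 ^ a0) (2 ^ a0) - cc m B R) := by
    rw [Finset.mul_sum]
    apply Finset.sum_le_sum
    intro q _
    rw [hee q]
    linarith [hG1 (q * 2 ^ a0) (2 ^ a0)]
  have hmm : (0 : ℝ) < m + 1 := by positivity
  -- the bad blocks
  have hB1 : (2 : ℝ) ^ a0 * ((x + 1) * (((Finset.range n1).filter
      (fun q => σ.ee B R t m a0 q < x)).card : ℝ)) ≤ ε1 / 4 * N := by
    calc (2 : ℝ) ^ a0 * ((x + 1) * (((Finset.range n1).filter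
          (fun q => σ.ee B R t m a0 q < x)).card : ℝ))
        ≤ 2 ^ a0 * ((m + 1) * (ε1 / (8 * (m + 1)) * 2 ^ (A - a0))) := by gcongr
      _ = ε1 / 8 * (2 ^ a0 * 2 ^ (A - a0)) := by field_simp
      _ = ε1 / 8 * 2 ^ A := by rw [hpw]
      _ ≤ ε1 / 8 * (2 * N) := by gcongr
      _ = ε1 / 4 * N := by ring
  have hB2 : (N : ℝ) * x - 2 ^ a0 * m ≤ 2 ^ a0 * (n1 * x) := by
    have h1 : ((N : ℝ) - 2 ^ a0) * x ≤ n1 * 2 ^ a0 * x := by gcongr
    have h2 : (2 : ℝ) ^ a0 * x ≤ 2 ^ a0 * m := by gcongr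
    nlinarith
  have hB3 : (2 : ℝ) ^ a0 * (n1 * x - (x + 1) * (((Finset.range n1).filter
      (fun q => σ.ee B R t m a0 q < x)).card : ℝ)) ≤ 2 ^ a0 * ∑ q ∈ Finset.range n1, σ.ee B R t m a0 q := by
    gcongr
  have hB4 : (N : ℝ) * x - 2 ^ a0 * m - ε1 / 4 * N ≤ 2 ^ a0 * ∑ q ∈ Finset.range n1, σ.ee B R t m a0 q := by
    linarith
  have hB5 : L * ((N : ℝ) * x - 2 ^ a0 * m - ε1 / 4 * N) ≤
      L * (2 ^ a0 * ∑ q ∈ Finset.range n1, σ.ee B R t m a0 q) := by gcongr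
  have hN' : L * (2 ^ a0 * m) + cc m B R ≤ L * (ε1 / 2 * N) := by
    rw [div_le_iff₀ hε1] at hN
    have h1 : L * (2 * (2 ^ a0 * m + cc m B R / L)) ≤ L * (N * ε1) := by gcongr
    have h2 : L * (2 * (2 ^ a0 * m + cc m B R / L)) = 2 * (L * (2 ^ a0 * m) + cc m B R) := by
      field_simp
    nlinarith
  have hfin : L * ((m - ε0 - ε1) * N) ≤ L * ((N : ℝ) * x - 2 ^ a0 * m - ε1 / 4 * N) - cc m B R := by
    have : L * ((N : ℝ) * x - 2 ^ a0 * m - ε1 / 4 * N) = L * ((m - ε0 - ε1) * N) + L * (ε1 / 2 * N) -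
        L * (2 ^ a0 * m) := by rw [hx]; ring
    linarith
  have e1 : (2 : ℝ) ^ a0 * L * ∑ q ∈ Finset.range n1, σ.ee B R t m a0 q =
      L * (2 ^ a0 * ∑ q ∈ Finset.range n1, σ.ee B R t m a0 q) := by ring
  have e2 : (m - ε0 - ε1) * N * L = L * ((m - ε0 - ε1) * N) := by ring
  rw [e2]
  linarith

theorem st_COREM (hC : ST_CLAIM) (hG : ST_DGOOD) (hM : ST_DMEAS) (hS : ST_SUP) (hF : ST_FRM) (hE : ST_E1) :
    ST_COREM := by
  classical
  intro m B R ε0 ε1 hm hB hR hε0 hε1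
  set L := Real.log B with hL
  have hLpos : 0 < L := Real.log_pos (by exact_mod_cast hB)
  set C : ℕ := m * (2 * m ^ 2 + 1) with hCdef
  obtain ⟨μ, hμ1, hμ2⟩ : ∃ μ : ℕ, 1 ≤ μ ∧ C + m + 1 ≤ 2 ^ μ :=
    ⟨C + m + 1, by omega, Nat.lt_two_pow_self.le⟩
  obtain ⟨ϑ, hϑ, hϑ'⟩ := hC m B μ R ε0 hm hB hR hε0 hμ1 m le_rfl (ε1 / 4) (ε1 / (8 * (m + 1)))
    (by positivity) (by positivity)
  obtain ⟨n0, hn0⟩ := hG m B C (2 ^ μ) R ε0 hm hB hR hε0 hμ2
  obtain ⟨c0, hc1, hc2, hc3⟩ : ∃ c0 : ℕ, n0 ≤ 2 ^ c0 ∧ 2 * (m : ℝ) ^ (m + 2) / ϑ * (1 / 2) ^ c0 ≤ 1 / 2 ∧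
      cc m B R ≤ 2 ^ c0 * L := by
    have h1 : ∀ᶠ c : ℕ in Filter.atTop, n0 ≤ 2 ^ c :=
      (tendsto_pow_atTop_atTop_of_one_lt (r := (2 : ℕ)) (by norm_num)).eventually_ge_atTop n0
    have h2 : ∀ᶠ c : ℕ in Filter.atTop, 2 * (m : ℝ) ^ (m + 2) / ϑ * (1 / 2) ^ c ≤ 1 / 2 := by
      have ht : Filter.Tendsto (fun c : ℕ => 2 * (m : ℝ) ^ (m + 2) / ϑ * (1 / 2 : ℝ) ^ c) Filter.atTop
          (nhds (2 * (m : ℝ) ^ (m + 2) / ϑ * 0)) :=
        (tendsto_pow_atTop_nhds_zero_of_lt_one (by norm_num) (by norm_num)).const_mul _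
      rw [mul_zero] at ht
      exact (ht.eventually (gt_mem_nhds (by norm_num : (0 : ℝ) < 1 / 2))).mono (fun c hc => hc.le)
    have h3 : ∀ᶠ c : ℕ in Filter.atTop, cc m B R / L ≤ (2 : ℝ) ^ c :=
      (tendsto_pow_atTop_atTop_of_one_lt (r := (2 : ℝ)) (by norm_num)).eventually_ge_atTop _
    obtain ⟨c, h1, h2, h3⟩ := (h1.and (h2.and h3)).exists
    refine ⟨c, h1, h2, ?_⟩
    rwa [div_le_iff₀ hLpos] at h3
  obtain ⟨a0, ha0, hA⟩ := hϑ' c0
  refine ⟨max (2 ^ a0 + 1) (⌈2 * (2 ^ a0 * m + cc m B R / L) / ε1⌉₊), ?_⟩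
  intro N hN ι _ _ σ hOk hcard
  have hN1 : 2 ^ a0 + 1 ≤ N := le_trans (le_max_left _ _) hN
  have hN2 : 2 * (2 ^ a0 * m + cc m B R / L) / ε1 ≤ N :=
    (Nat.le_ceil _).trans (by exact_mod_cast le_trans (le_max_right _ _) hN)
  -- the case of negative entropy bound
  rcases le_or_gt (m - ε0 - ε1 : ℝ) 0 with hneg | hpos
  · have : {t : ℝ | 0 ≤ t ∧ t ≤ 1 ∧ ent (univ : Finset (Fin N → ι)) (fun u => fl (σ.P B t 0 N u)) <
        (m - ε0 - ε1) * N * Real.log B} = ∅ := by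
      ext t
      simp only [Set.mem_ofPred_eq, Set.mem_empty_iff_false, iff_false, not_and, not_lt]
      intro _ _
      have h1 := hE.2.2.1 (Fin N → ι) (Fin m → ℤ) univ (fun u => fl (σ.P B t 0 N u))
      have h2 : (m - ε0 - ε1) * N * Real.log B ≤ 0 := by
        have : (0 : ℝ) ≤ N * L := by positivity
        have h3 : (m - ε0 - ε1) * (N * L) ≤ 0 := mul_nonpos_of_nonpos_of_nonneg hneg this
        rw [← hL]
        linarith
      linarith
    rw [this]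
    simp
  have hN0 : 1 < N := by
    have : 1 ≤ 2 ^ a0 := Nat.one_le_two_pow
    omega
  set A := Nat.clog 2 N with hAdef
  have hNA : N ≤ 2 ^ A := Nat.le_pow_clog (by norm_num) N
  have hAN : 2 ^ A < 2 * N := by
    have h1 : 2 ^ A.pred < N := Nat.pow_pred_clog_lt_self (by norm_num) hN0
    have h2 : A ≠ 0 := by
      intro h
      rw [h] at hNA
      simp at hNA
      omega
    have h3 : A = A.pred + 1 := (Nat.succ_pred h2).symm
    rw [h3, pow_succ]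
    omega
  have ha0A : a0 ≤ A := by
    have h1 : 2 ^ a0 < 2 ^ A := by omega
    exact ((Nat.pow_lt_pow_iff_right (by norm_num)).1 h1).le
  -- exceptional sets
  set S : ℕ → ℕ → Set ℝ := fun c q => {t | ¬ σ.Dio B C t (q * 2 ^ c) (2 ^ c)} with hSdef
  have hcardB : Fintype.card ι ≤ B ^ m := by
    have hinj := hOk.2.1 0
    let g : ι → (Fin m → Fin B) := fun s c => ⟨(σ.dg 0 s c).toNat, by
      have h1 := (hOk.1 0 s c).1
      have h2 := (hOk.1 0 s c).2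
      omega⟩
    have hg : Function.Injective g := by
      intro s s' hss
      apply hinj
      funext c
      have h1 := congrFun hss c
      simp only [g, Fin.mk.injEq] at h1
      have h2 := (hOk.1 0 s c).1
      have h3 := (hOk.1 0 s' c).1
      omega
    have := Fintype.card_le_of_injective g hg
    simpa using this
  have hSm : ∀ c q, volume (S c q) ≤ ENNReal.ofReal (2 * (m : ℝ) ^ (m + 2) / (B : ℝ) ^ (1 * 2 ^ c)) := by
    intro c q
    exact hM m 1 B ι σ (q * 2 ^ c) (2 ^ c) hm hB hcardB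
  have hsub : {t : ℝ | 0 ≤ t ∧ t ≤ 1 ∧ ent (univ : Finset (Fin N → ι)) (fun u => fl (σ.P B t 0 N u)) <
        (m - ε0 - ε1) * N * Real.log B} ⊆ ⋃ c ∈ Finset.Icc c0 a0,
        {t : ℝ | ϑ * ((2 ^ (A - c) : ℕ) : ℝ) <
          (((Finset.range (2 ^ (A - c))).filter (fun q => t ∈ S c q)).card : ℝ)} := by
    rintro t ⟨ht0, ht1, htlt⟩
    by_contra hcon
    simp only [Set.mem_iUnion, Set.mem_ofPred_eq, not_exists, not_lt, Finset.mem_Icc] at hcon
    have hbad := hA A ha0A ι σ t hOk ht0 ht1 (by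
      intro c hcc1 hcc2
      have h1 := hcon c ⟨hcc1, hcc2⟩
      push_cast at h1
      refine le_trans ?_ h1
      have h2 : (Finset.range (2 ^ (A - c))).filter (fun q => ¬ σ.Good B ε0 t (2 ^ μ) (q * 2 ^ c) (2 ^ c)) ⊆
          (Finset.range (2 ^ (A - c))).filter (fun q => t ∈ S c q) := by
        intro q hq
        rw [Finset.mem_filter] at hq ⊢
        refine ⟨hq.1, ?_⟩
        intro hD
        apply hq.2
        exact hn0 ι σ t (q * 2 ^ c) (2 ^ c) hOk ht0 ht1 hcard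
          (hc1.trans (Nat.pow_le_pow_right (by norm_num) hcc1)) hD
      exact_mod_cast Finset.card_le_card h2) a0 le_rfl ha0A
    have s := hS m B R t ι σ m hm hB hR ht0 ht1 hOk le_rfl
    have hFr : Frame (1 : Matrix (Fin m) (Fin m) ℝ) := hF.2.2.2.2.2.1 m
    have hcc' : cc m B R ≤ 2 ^ a0 * L := by
      refine hc3.trans ?_
      gcongr
      norm_num
    have key := corem_num σ ε0 ε1 L a0 A N hL hLpos hε0 hε1 hpos hAN hNA ha0A hcc' hN2
      (fun i n1 n2 => s.1 1 i n1 n2 hFr) (fun i n => (s.2.1 1 i n hFr).1) (fun i n => (s.2.2.2.1 i n).1)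
      (fun i n => s.2.2.2.2.1 1 i n hFr) (by convert hbad)
    have hent : σ.hh B t (1 : Matrix (Fin m) (Fin m) ℝ) 0 N =
        ent (univ : Finset (Fin N → ι)) (fun u => fl (σ.P B t 0 N u)) := by
      rw [Sys.hh]
      simp only [Matrix.one_mulVec]
    rw [hent] at key
    rw [← hL] at htlt
    linarith
  refine (measure_mono hsub).trans ?_
  refine (measure_biUnion_finset_le _ _).trans ?_
  calc ∑ c ∈ Finset.Icc c0 a0, volume {t : ℝ | ϑ * ((2 ^ (A - c) : ℕ) : ℝ) <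
          (((Finset.range (2 ^ (A - c))).filter (fun q => t ∈ S c q)).card : ℝ)}
      ≤ ∑ c ∈ Finset.Icc c0 a0, ENNReal.ofReal (2 * (m : ℝ) ^ (m + 2) / (B : ℝ) ^ (1 * 2 ^ c) / ϑ) := by
        apply Finset.sum_le_sum
        intro c _
        have h1 := corem_markov (2 ^ (A - c)) (S c) _ ϑ hϑ (fun q _ => hSm c q)
        refine le_trans (measure_mono ?_) h1
        intro t ht
        simp only [Set.mem_ofPred_eq] at ht ⊢
        convert ht
    _ = ENNReal.ofReal (∑ c ∈ Finset.Icc c0 a0, 2 * (m : ℝ) ^ (m + 2) / (B : ℝ) ^ (1 * 2 ^ c) / ϑ) := by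
        rw [ENNReal.ofReal_sum_of_nonneg]
        intro c _
        positivity
    _ ≤ ENNReal.ofReal (1 / 2) := by
        apply ENNReal.ofReal_le_ofReal
        calc ∑ c ∈ Finset.Icc c0 a0, 2 * (m : ℝ) ^ (m + 2) / (B : ℝ) ^ (1 * 2 ^ c) / ϑ
            ≤ ∑ c ∈ Finset.Icc c0 a0, 2 * (m : ℝ) ^ (m + 2) / ϑ * (1 / 2) ^ (c + 1) := by
              apply Finset.sum_le_sum
              intro c _
              have h1 := corem_two_pow B c hB
              have h2 : 2 * (m : ℝ) ^ (m + 2) / (B : ℝ) ^ (1 * 2 ^ c) / ϑ ≤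
                  2 * (m : ℝ) ^ (m + 2) / (2 : ℝ) ^ (c + 1) / ϑ := by gcongr
              refine h2.trans (le_of_eq ?_)
              rw [one_div, inv_pow]
              field_simp
          _ = 2 * (m : ℝ) ^ (m + 2) / ϑ * ∑ c ∈ Finset.Icc c0 a0, (1 / 2 : ℝ) ^ (c + 1) := by
              rw [Finset.mul_sum]
          _ ≤ 2 * (m : ℝ) ^ (m + 2) / ϑ * (1 / 2 : ℝ) ^ c0 := by
              gcongr
              exact corem_geom c0 a0
          _ ≤ 1 / 2 := hc2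

end Pool.Agent.Helper70.DK
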